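import Pool.Agent.H36.VR.MIN

/-!
# MP_d32443_co, board ver_modules: AVE (sparse pairs contain sparse pairs of prescribed size)
-/

set_option autoImplicit false

namespace Pool.Agent.H36.VR

open Finset Pool.Agent.H48.CE Pool.Agent.H30.VR

theorem ave_aux {V : Type} (G : SimpleGraph V) (B : Finset V) (d : ℝ) (q : ℕ) (hq : 1 ≤ q) :
    ∀ (n : ℕ) (A : Finset V), A.card = q + n → (ee G A B : ℝ) < d * A.card * B.card →
      ∃ A' ⊆ A, A'.card = q ∧ (ee G A' B : ℝ) < d * q * B.card := by
  classical
  intro n
  induction n with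
  | zero =>
    intro A hA h
    rw [add_zero] at hA
    exact ⟨A, Subset.rfl, hA, by rwa [hA] at h⟩
  | succ n ih =>
    intro A hA h
    have hne : A.Nonempty := by
      rw [← card_pos]
      omega
    obtain ⟨a, ha, hmax⟩ := exists_max_image A (fun b => (nb G B b).card) hne
    have e1 := ee_erase_left G B ha
    have e2 := card_erase_add_one ha
    have h1 : ee G A B ≤ A.card * (nb G B a).card := by
      unfold ee
      rw [← smul_eq_mul]
      exact sum_le_card_nsmul _ _ _ hmax
    have h2 : (ee G (A.erase a) B : ℝ) < d * (A.erase a).card * B.card := by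
      have hw0 : (1 : ℝ) ≤ ((A.erase a).card : ℝ) := by
        exact_mod_cast (by omega : 1 ≤ (A.erase a).card)
      have e1' : (ee G (A.erase a) B : ℝ) + ((nb G B a).card : ℝ) = ee G A B := by
        exact_mod_cast e1
      have e2' : ((A.erase a).card : ℝ) + 1 = A.card := by exact_mod_cast e2
      have h1' : (ee G A B : ℝ) ≤ A.card * ((nb G B a).card : ℝ) := by exact_mod_cast h1
      rw [← e2', ← e1'] at h h1'
      set w : ℝ := ((A.erase a).card : ℝ)
      set x : ℝ := (ee G (A.erase a) B : ℝ)
      set y : ℝ := ((nb G B a).card : ℝ)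
      set z : ℝ := (B.card : ℝ)
      have h3 : x ≤ w * y := by linarith
      have h4 : (w + 1) * x < (w + 1) * (d * w * z) := by
        calc (w + 1) * x = w * x + x := by ring
          _ ≤ w * x + w * y := by linarith
          _ = w * (x + y) := by ring
          _ < w * (d * (w + 1) * z) := mul_lt_mul_of_pos_left h (by linarith)
          _ = _ := by ring
      exact lt_of_mul_lt_mul_left h4 (by linarith)
    obtain ⟨A', hA', h3⟩ := ih (A.erase a) (by omega) h2
    exact ⟨A', hA'.trans (erase_subset _ _), h3⟩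

theorem pf_AVE : T_AVE := by
  intro V G A B d q hq hA hB h
  obtain ⟨A', hA', hAc, h1⟩ := ave_aux G B d q hq (A.card - q) A (by omega) h
  have h2 : (ee G B A' : ℝ) < d * B.card * A'.card := by
    rw [ee_comm, hAc]
    linarith [mul_right_comm d (q : ℝ) (B.card : ℝ)]
  obtain ⟨B', hB', hBc, h3⟩ := ave_aux G A' d q hq (B.card - q) B (by omega) h2
  refine ⟨A', hA', B', hB', hAc, hBc, ?_⟩
  rw [ee_comm, ← hAc]
  rw [hAc] at h3 ⊢
  exact h3

end Pool.Agent.H36.VR
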