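import Pool.Agent.H36.VR.MIN

/-!
# MP_d32443_co, board ver_modules: MAD (the potential of Mader)
-/

set_option autoImplicit false

namespace Pool.Agent.H36.VR

open Finset Pool.Agent.H48.CE Pool.Agent.H30.VR

open scoped Classical in
theorem ee_erase_both {V : Type} (G : SimpleGraph V) {W : Finset V} {x : V} (hx : x ∈ W) :
    ee G (W.erase x) (W.erase x) + 2 * (nb G W x).card = ee G W W := by
  have e1 := ee_erase_left G W hx
  have e2 := ee_erase_right G (W.erase x) hx
  have e3 : nb G (W.erase x) x = nb G W x := by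
    ext y
    rw [mem_nb, mem_nb, mem_erase]
    constructor
    · rintro ⟨⟨-, h1⟩, h2⟩
      exact ⟨h1, h2⟩
    · rintro ⟨h1, h2⟩
      exact ⟨⟨h2.ne', h1⟩, h2⟩
  rw [e3] at e2
  omega

theorem ee_sep {V : Type} (G : SimpleGraph V) {W A B : Finset V}
    (h : ∀ u ∈ W, ∀ v ∈ W, G.Adj u v → (u ∈ A ∧ v ∈ A) ∨ (u ∈ B ∧ v ∈ B)) :
    ee G W W ≤ ee G A A + ee G B B := by
  classical
  rw [ee_eq_card W W, ee_eq_card A A, ee_eq_card B B]
  refine le_trans (card_le_card ?_) (card_union_le _ _)
  intro p hp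
  rw [mem_filter, mem_product] at hp
  rw [mem_union, mem_filter, mem_filter, mem_product, mem_product]
  rcases h p.1 hp.1.1 p.2 hp.1.2 hp.2 with h1 | h1
  · exact Or.inl ⟨h1, hp.2⟩
  · exact Or.inr ⟨h1, hp.2⟩

theorem pf_MAD : T_MAD := by
  classical
  intro V _ G T c hc hV hG
  have hT0 : (0 : ℝ) ≤ T := Nat.cast_nonneg T
  have hcT : (T : ℝ) + 2 ≤ c := by nlinarith
  have hc0 : 0 < c := by linarith
  let Adm : Finset V → Prop := fun W => T + 1 ≤ W.card ∧ 2 * c * (W.card - T) ≤ ee G W W
  have hV' : (0 : ℝ) < Fintype.card V := by exact_mod_cast hV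
  have hU : Adm univ := by
    have h1 : (ee G univ univ : ℝ) ≤ Fintype.card V * Fintype.card V := by
      have := ee_le_mul (G := G) univ univ
      rw [card_univ] at this
      exact_mod_cast this
    have h2 : 2 * c ≤ Fintype.card V := by
      have h3 : 2 * c * Fintype.card V ≤ Fintype.card V * Fintype.card V := hG.trans h1
      exact le_of_mul_le_mul_right h3 hV'
    constructor
    · rw [card_univ]
      have : ((T + 1 : ℕ) : ℝ) ≤ (Fintype.card V : ℝ) := by
        push_cast
        linarith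
      exact_mod_cast this
    · rw [card_univ]
      have : 0 ≤ 2 * c * (T : ℝ) := by positivity
      linarith [mul_sub (2 * c) (Fintype.card V : ℝ) (T : ℝ)]
  obtain ⟨W, hW, hmin⟩ := exists_min_image (univ.filter Adm) Finset.card
    ⟨univ, mem_filter.2 ⟨mem_univ _, hU⟩⟩
  rw [mem_filter] at hW
  obtain ⟨-, hW1, hW2⟩ := hW
  have hmin' : ∀ X : Finset V, X.card < W.card → T + 1 ≤ X.card →
      (ee G X X : ℝ) < 2 * c * (X.card - T) := by
    intro X hX hX1
    by_contra hcon
    push Not at hcon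
    have := hmin X (mem_filter.2 ⟨mem_univ _, hX1, hcon⟩)
    omega
  have hWc : c ≤ W.card := by
    by_contra hcon
    push Not at hcon
    have h1 : (ee G W W : ℝ) ≤ W.card * W.card := by exact_mod_cast ee_le_mul (G := G) W W
    have h2 : (T : ℝ) + 1 ≤ W.card := by exact_mod_cast hW1
    set a : ℝ := (W.card : ℝ)
    nlinarith [mul_nonneg (sub_nonneg.2 h2) (sub_nonneg.2 hcon.le),
      mul_nonneg (sub_nonneg.2 h2) (by linarith : (0 : ℝ) ≤ c - (T + 1))]
  have hdeg : ∀ x ∈ W, c < ((nb G W x).card : ℝ) := by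
    intro x hx
    by_contra hcon
    push Not at hcon
    have e1 := ee_erase_both G hx
    have e2 := card_erase_add_one hx
    have e1' : (ee G (W.erase x) (W.erase x) : ℝ) + 2 * ((nb G W x).card : ℝ) = ee G W W := by
      exact_mod_cast e1
    have e2' : ((W.erase x).card : ℝ) + 1 = W.card := by exact_mod_cast e2
    have h1 : T + 1 ≤ (W.erase x).card := by
      have : ((T + 1 : ℕ) : ℝ) ≤ ((W.erase x).card : ℝ) := by
        push_cast
        linarith
      exact_mod_cast this
    have h2 := hmin' (W.erase x) (by omega) h1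
    rw [← e2'] at hW2
    linarith [mul_sub (2 * c) ((W.erase x).card : ℝ) (T : ℝ),
      mul_sub (2 * c) (((W.erase x).card : ℝ) + 1) (T : ℝ)]
  refine ⟨W, hWc, hW2, ?_⟩
  intro A B hAB hsep
  by_cases hA : A = W
  · exact Or.inl hA
  by_cases hB : B = W
  · exact Or.inr (Or.inl hB)
  refine Or.inr (Or.inr ⟨A ∩ B, fun x => mem_inter, ?_⟩)
  by_contra hcon
  push Not at hcon
  have hAW : A ⊆ W := fun x hx => (hAB x).1 (Or.inl hx)
  have hBW : B ⊆ W := fun x hx => (hAB x).1 (Or.inr hx)
  have hAss : A ⊂ W := hAW.ssubset_of_ne hA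
  have hBss : B ⊂ W := hBW.ssubset_of_ne hB
  obtain ⟨y, hyW, hyA⟩ := exists_of_ssubset hAss
  obtain ⟨x, hxW, hxB⟩ := exists_of_ssubset hBss
  have hxA : x ∈ A := ((hAB x).2 hxW).resolve_right hxB
  have hyB : y ∈ B := ((hAB y).2 hyW).resolve_left hyA
  have hnx : nb G W x ⊆ A := by
    intro z hz
    rw [mem_nb] at hz
    by_contra hzA
    exact hsep x hxA hxB z (((hAB z).2 hz.1).resolve_left hzA) hzA hz.2
  have hny : nb G W y ⊆ B := by
    intro z hz
    rw [mem_nb] at hz
    by_contra hzB
    exact hsep z (((hAB z).2 hz.1).resolve_right hzB) hzB y hyB hyA hz.2.symm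
  have hcard : ∀ (X : Finset V) (z : V), z ∈ W → nb G W z ⊆ X → T + 1 ≤ X.card := by
    intro X z hz hX
    have h1 := hdeg z hz
    have h2 : ((nb G W z).card : ℝ) ≤ X.card := by exact_mod_cast card_le_card hX
    have : ((T + 1 : ℕ) : ℝ) ≤ (X.card : ℝ) := by
      push_cast
      linarith
    exact_mod_cast this
  have hA1 := hmin' A (card_lt_card hAss) (hcard A x hxW hnx)
  have hB1 := hmin' B (card_lt_card hBss) (hcard B y hyW hny)
  have h1 : ee G W W ≤ ee G A A + ee G B B := by
    apply ee_sep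
    intro u hu v hv huv
    by_cases huA : u ∈ A
    · by_cases hvA : v ∈ A
      · exact Or.inl ⟨huA, hvA⟩
      · have hvB := ((hAB v).2 hv).resolve_left hvA
        by_cases huB : u ∈ B
        · exact Or.inr ⟨huB, hvB⟩
        · exact absurd huv (hsep u huA huB v hvB hvA)
    · have huB := ((hAB u).2 hu).resolve_left huA
      by_cases hvB : v ∈ B
      · exact Or.inr ⟨huB, hvB⟩
      · have hvA := ((hAB v).2 hv).resolve_right hvB
        exact absurd huv.symm (hsep v hvA hvB u huB huA)
  have h1' : (ee G W W : ℝ) ≤ ee G A A + ee G B B := by exact_mod_cast h1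
  have h2 : A ∪ B = W := by
    ext z
    rw [mem_union]
    exact hAB z
  have h3 := card_union_add_card_inter A B
  rw [h2] at h3
  have h3' : (W.card : ℝ) + ((A ∩ B).card : ℝ) = A.card + B.card := by exact_mod_cast h3
  have h4 : ((A ∩ B).card : ℝ) ≤ T := by exact_mod_cast hcon
  have h5 : 2 * c * (W.card - T) < 2 * c * (A.card - T) + 2 * c * (B.card - T) := by
    linarith
  have h6 : 2 * c * (A.card - T) + 2 * c * (B.card - T) ≤ 2 * c * (W.card - T) := by
    have : (A.card : ℝ) - T + (B.card - T) ≤ W.card - T := by linarith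
    calc 2 * c * ((A.card : ℝ) - T) + 2 * c * (B.card - T)
        = 2 * c * (A.card - T + (B.card - T)) := by ring
      _ ≤ _ := mul_le_mul_of_nonneg_left this (by positivity)
  linarith

end Pool.Agent.H36.VR
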