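import Pool.Agent.H30.VR.Targets

/-!
# MP_d32443_co, board ver_modules: MIN (a subgraph of large minimal degree)
-/

set_option autoImplicit false

namespace Pool.Agent.H36.VR

open Finset Pool.Agent.H48.CE Pool.Agent.H30.VR

variable {V : Type}

open scoped Classical in
theorem ee_erase_left (G : SimpleGraph V) {A : Finset V} (B : Finset V) {x : V} (hx : x ∈ A) :
    ee G (A.erase x) B + (nb G B x).card = ee G A B := by
  unfold ee
  rw [add_comm]
  exact add_sum_erase A (fun a => (nb G B a).card) hx

open scoped Classical in
theorem ee_erase_right (G : SimpleGraph V) (A : Finset V) {B : Finset V} {x : V} (hx : x ∈ B) :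
    ee G A (B.erase x) + (nb G A x).card = ee G A B := by
  rw [ee_comm, ee_comm A B]
  exact ee_erase_left G A hx

theorem pf_MIN : T_MIN := by
  classical
  intro V G P Q D h
  obtain ⟨n, hn⟩ : ∃ n, P.card + Q.card = n := ⟨_, rfl⟩
  induction n using Nat.strong_induction_on generalizing P Q with
  | _ n ih =>
    by_cases h1 : ∃ x ∈ P, (nb G Q x).card ≤ D
    · obtain ⟨x, hx, hd⟩ := h1
      have e1 := ee_erase_left G Q hx
      have e2 := card_erase_add_one hx
      have h2 : D * ((P.erase x).card + Q.card) < ee G (P.erase x) Q := by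
        have e3 : D * (P.card + Q.card) = D * ((P.erase x).card + Q.card) + D := by
          rw [← e2]
          ring
        omega
      obtain ⟨P', hP, Q', hQ, h3⟩ := ih ((P.erase x).card + Q.card) (by omega) (P.erase x) Q h2 rfl
      exact ⟨P', hP.trans (erase_subset _ _), Q', hQ, h3⟩
    · by_cases h1' : ∃ y ∈ Q, (nb G P y).card ≤ D
      · obtain ⟨y, hy, hd⟩ := h1'
        have e1 := ee_erase_right G P hy
        have e2 := card_erase_add_one hy
        have h2 : D * (P.card + (Q.erase y).card) < ee G P (Q.erase y) := by
          have e3 : D * (P.card + Q.card) = D * (P.card + (Q.erase y).card) + D := by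
            rw [← e2]
            ring
          omega
        obtain ⟨P', hP, Q', hQ, h3⟩ :=
          ih (P.card + (Q.erase y).card) (by omega) P (Q.erase y) h2 rfl
        exact ⟨P', hP, Q', hQ.trans (erase_subset _ _), h3⟩
      · push Not at h1 h1'
        obtain ⟨a, ha, -⟩ := exists_adj_of_ee_pos (lt_of_le_of_lt (Nat.zero_le _) h)
        exact ⟨P, Subset.rfl, Q, Subset.rfl, ⟨a, ha⟩, h1, h1'⟩

end Pool.Agent.H36.VR
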