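import Pool.Agent.H36.VR.MIN

/-!
# MP_d32443_co, board ver_modules: PAR (a dense pair in a graph of large minimal degree)
-/

set_option autoImplicit false

namespace Pool.Agent.H36.VR

open Finset Pool.Agent.H48.CE Pool.Agent.H30.VR

theorem par_aux {V : Type} (G : SimpleGraph V) (A : Finset V) (N : ℕ) (hN : 1 ≤ N) :
    ∀ (n : ℕ) (W : Finset V), W.card = N + n →
      ∃ B ⊆ W, B.card = N ∧ N * ee G A W ≤ W.card * ee G A B := by
  classical
  intro n
  induction n with
  | zero =>
    intro W hW
    rw [add_zero] at hW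
    exact ⟨W, Subset.rfl, hW, by rw [hW]⟩
  | succ n ih =>
    intro W hW
    have hne : W.Nonempty := by
      rw [← card_pos]
      omega
    obtain ⟨b, hb, hmin⟩ := exists_min_image W (fun b => (nb G A b).card) hne
    have e1 := ee_erase_right G A hb
    have e2 := card_erase_add_one hb
    have h1 : W.card * (nb G A b).card ≤ ee G A W := by
      rw [ee_comm]
      unfold ee
      rw [← smul_eq_mul]
      exact card_nsmul_le_sum _ _ _ hmin
    obtain ⟨B, hB, hBc, hB'⟩ := ih (W.erase b) (by omega)
    refine ⟨B, hB.trans (erase_subset _ _), hBc, ?_⟩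
    set w := (W.erase b).card with hw
    have hw0 : 1 ≤ w := by omega
    set x := ee G A (W.erase b)
    set y := (nb G A b).card
    rw [← e2] at h1 ⊢
    rw [← e1] at h1 ⊢
    have h2 : w * y ≤ x := by
      have : (w + 1) * y = w * y + y := by ring
      omega
    have h3 : w * (N * (x + y)) ≤ w * ((w + 1) * ee G A B) := by
      calc w * (N * (x + y)) = N * (w * x) + N * (w * y) := by ring
        _ ≤ N * (w * x) + N * x := Nat.add_le_add_left (Nat.mul_le_mul_left _ h2) _
        _ = (w + 1) * (N * x) := by ring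
        _ ≤ (w + 1) * (w * ee G A B) := Nat.mul_le_mul_left _ hB'
        _ = _ := by ring
    exact Nat.le_of_mul_le_mul_left h3 hw0

theorem pf_PAR : T_PAR := by
  classical
  intro V G U W k D N hW hU hNU hNW
  obtain ⟨A, hA, hAc⟩ := exists_subset_card_eq hNU
  rcases Nat.eq_zero_or_pos N with hN | hN
  · subst hN
    exact ⟨A, hA, ∅, empty_subset _, hAc, card_empty, by simp⟩
  obtain ⟨B, hB, hBc, hAB⟩ := par_aux G A N hN (W.card - N) W (by omega)
  refine ⟨A, hA, B, hB, hAc, hBc, ?_⟩
  have h1 : A.card * D ≤ ee G A W := by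
    unfold ee
    rw [← smul_eq_mul]
    exact card_nsmul_le_sum _ _ _ fun a ha => hU a (hA ha)
  rw [hAc] at h1
  calc D * N * N = N * (N * D) := by ring
    _ ≤ N * ee G A W := Nat.mul_le_mul_left _ h1
    _ ≤ W.card * ee G A B := hAB
    _ ≤ 2 * k * ee G A B := Nat.mul_le_mul_right _ hW

end Pool.Agent.H36.VR
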